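import Pool.Agent.V1155.NoethSL

set_option autoImplicit false

/-!
`Pool.Agent.V1155.SL A φ` is the skew Laurent series ring over `A` with `x a = φ(a) x`. If it is von
Neumann regular then it is Artinian on both sides.
-/

namespace Pool.Agent.Results.MP_20d9b9_al.RegularArtinian

open Pool.Agent.V1155

universe u

theorem result (A : Type u) [Ring A] (φ : A ≃+* A)
    (h : ∀ r : SL A φ, ∃ s : SL A φ, r = r * s * r) :
    IsArtinianRing (SL A φ) ∧ IsArtinianRing (SL A φ)ᵐᵒᵖ := by
  have := semisimple_SL (φ := φ) h
  exact ⟨inferInstance, inferInstance⟩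

end Pool.Agent.Results.MP_20d9b9_al.RegularArtinian
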